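import Pool.Agent.Helper75.PY.Stmts2

/-! # PY: the row PM2 -/

set_option autoImplicit false

universe u

namespace Pool.Agent.Helper39.PY

open Pool.Agent.Helper75.PX Pool.Agent.Helper75.PY

/-- an element in the basis `1, y, y^2` -/
def NN {K A : Type*} [Field K] [Ring A] [Algebra K A] (y : A) (a b c : K) : A :=
  a • (1 : A) + b • y + c • (y * y)

theorem NN_congr {K A : Type*} [Field K] [Ring A] [Algebra K A] (y : A) {a b c a' b' c' : K}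
    (h0 : a = a') (h1 : b = b') (h2 : c = c') : NN y a b c = NN y a' b' c' := by
  rw [h0, h1, h2]

theorem NN_mul {K A : Type*} [Field K] [Ring A] [Algebra K A] (y : A) (t : K)
    (hy : y * y * y = t • (y * y) + (t + 1) • y + 1) (a b c a' b' c' : K) :
    NN y a b c * NN y a' b' c' = NN y (a * a' + (b * c' + c * b') + c * c' * t)
      (a * b' + b * a' + (b * c' + c * b') * (t + 1) + c * c' * (t ^ 2 + t + 1))
      (a * c' + b * b' + c * a' + (b * c' + c * b') * t + c * c' * (t ^ 2 + t + 1)) := by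
  have hy3 : y * (y * y) = t • (y * y) + (t + 1) • y + 1 := by rw [← mul_assoc, hy]
  have hy4 : y * y * (y * y) = (t ^ 2 + t + 1) • (y * y) + (t ^ 2 + t + 1) • y + t • (1 : A) := by
    calc y * y * (y * y) = y * (y * y * y) := by noncomm_ring
      _ = y * (t • (y * y) + (t + 1) • y + 1) := by rw [hy]
      _ = t • (y * (y * y)) + (t + 1) • (y * y) + y := by
          rw [mul_add, mul_add, mul_smul_comm, mul_smul_comm, mul_one]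
      _ = (t ^ 2 + t + 1) • (y * y) + (t ^ 2 + t + 1) • y + t • (1 : A) := by
          rw [hy3]; module
  unfold NN
  simp only [add_mul, mul_add, smul_mul_assoc, mul_smul_comm, one_mul, mul_one]
  rw [hy3, hy, hy4]
  module

/-- the coordinates of the new generator and of its conjugate -/
def Y0 {K : Type*} [Field K] (t r k : K) : K := r + (r ^ 2 + r + 1) * k * (r ^ 2 + t * r)
def Y1 {K : Type*} [Field K] (t r k : K) : K := (r ^ 2 + r + 1) * k * (r + 1 + t)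
def Y2 {K : Type*} [Field K] (_t r k : K) : K := (r ^ 2 + r + 1) * k
def C0 {K : Type*} [Field K] (t r k : K) : K := Y0 t r k + Y2 t r k * t
def C1 {K : Type*} [Field K] (t r k : K) : K :=
  Y1 t r k * (t + 1) + Y2 t r k * (t ^ 2 + t + 1)
def C2 {K : Type*} [Field K] (t r k : K) : K := Y1 t r k + Y2 t r k * t
def TT {K : Type*} [Field K] (t r k : K) : K := t + (t ^ 2 + t + 1) * (r ^ 2 + r) * k

theorem sq_eq {K A : Type*} [Field K] [Ring A] [Algebra K A] (y : A) (t r k : K)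
    (h2 : (2 : K) = 0) (hy : y * y * y = t • (y * y) + (t + 1) • y + 1)
    (hk : k * (r ^ 3 + (t + 1) * r ^ 2 + t * r + 1) = 1) :
    NN y (Y0 t r k) (Y1 t r k) (Y2 t r k) * NN y (Y0 t r k) (Y1 t r k) (Y2 t r k) =
      NN y (C0 t r k + (TT t r k + 1) * Y0 t r k) (C1 t r k + (TT t r k + 1) * Y1 t r k)
        (C2 t r k + (TT t r k + 1) * Y2 t r k) := by
  rw [NN_mul y t hy]
  refine NN_congr y ?_ ?_ ?_
  · unfold C0 TT Y0 Y1 Y2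
    linear_combination (t * k + r * t + r * t ^ 2 * k + r ^ 2 + r ^ 2 * t * k + r ^ 2 * t ^ 2 *
        k + r ^ 3 * k + r ^ 3 * t ^ 2 * k + r ^ 4 * k + r ^ 4 * t * k + r ^ 5 * k) * hk + (k ^ 2
        + t * k ^ 2 - r + 3 * r * k ^ 2 - 2 * r * t * k + 3 * r * t * k ^ 2 - r * t ^ 2 * k ^ 2
        + r ^ 2 - 2 * r ^ 2 * k + 5 * r ^ 2 * k ^ 2 - r ^ 2 * t * k + 3 * r ^ 2 * t * k ^ 2 - r
        ^ 2 * t ^ 2 * k - r ^ 2 * t ^ 2 * k ^ 2 - r ^ 2 * t ^ 3 * k ^ 2 + 4 * r ^ 3 * k ^ 2 - 2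
        * r ^ 3 * t * k + 2 * r ^ 3 * t * k ^ 2 - r ^ 3 * t ^ 2 * k - 2 * r ^ 3 * t ^ 2 * k ^ 2
        - 2 * r ^ 3 * t ^ 3 * k ^ 2 + 2 * r ^ 4 * k ^ 2 - 2 * r ^ 4 * t ^ 2 * k ^ 2 - 2 * r ^ 4
        * t ^ 3 * k ^ 2 + r ^ 5 * k - 2 * r ^ 5 * t ^ 2 * k ^ 2 - r ^ 5 * t ^ 3 * k ^ 2 - r ^ 6
        * t ^ 2 * k ^ 2) * h2
  · unfold C1 TT Y0 Y1 Y2
    linear_combination (k + t * k + t ^ 2 * k + r * k + r * t * k + r * t ^ 2 * k + r ^ 2 * k +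
        r ^ 2 * t * k + r ^ 2 * t ^ 2 * k) * hk + (-k + k ^ 2 - 2 * t * k + 2 * t * k ^ 2 - t ^
        2 * k + t ^ 2 * k ^ 2 - r * k + 3 * r * k ^ 2 - 2 * r * t * k + 5 * r * t * k ^ 2 - r *
        t ^ 2 * k + 2 * r * t ^ 2 * k ^ 2 - r * t ^ 3 * k ^ 2 + 5 * r ^ 2 * k ^ 2 - 2 * r ^ 2 *
        t * k + 9 * r ^ 2 * t * k ^ 2 - r ^ 2 * t ^ 2 * k + 2 * r ^ 2 * t ^ 2 * k ^ 2 - 2 * r ^
        2 * t ^ 3 * k ^ 2 + r ^ 3 * k + 6 * r ^ 3 * k ^ 2 + 10 * r ^ 3 * t * k ^ 2 + r ^ 3 * t ^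
        2 * k ^ 2 - 2 * r ^ 3 * t ^ 3 * k ^ 2 + r ^ 4 * k + 6 * r ^ 4 * k ^ 2 + 9 * r ^ 4 * t *
        k ^ 2 - r ^ 4 * t ^ 3 * k ^ 2 + 5 * r ^ 5 * k ^ 2 + 5 * r ^ 5 * t * k ^ 2 + 3 * r ^ 6 *
        k ^ 2 + 2 * r ^ 6 * t * k ^ 2 + r ^ 7 * k ^ 2) * h2
  · unfold C2 TT Y0 Y1 Y2
    linear_combination (t * k + r * k + r * t * k + r ^ 2 * k + r ^ 2 * t * k + r ^ 3 * k) * hk
        + (-k + k ^ 2 - t * k + 2 * t * k ^ 2 + 2 * t ^ 2 * k ^ 2 + 2 * r * k ^ 2 - r * t * k +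
        7 * r * t * k ^ 2 + 3 * r * t ^ 2 * k ^ 2 + 5 * r ^ 2 * k ^ 2 - r ^ 2 * t * k + 11 * r ^
        2 * t * k ^ 2 + 4 * r ^ 2 * t ^ 2 * k ^ 2 + r ^ 3 * k + 6 * r ^ 3 * k ^ 2 + 11 * r ^ 3 *
        t * k ^ 2 + 2 * r ^ 3 * t ^ 2 * k ^ 2 + 6 * r ^ 4 * k ^ 2 + 6 * r ^ 4 * t * k ^ 2 + r ^
        4 * t ^ 2 * k ^ 2 + 3 * r ^ 5 * k ^ 2 + 2 * r ^ 5 * t * k ^ 2 + r ^ 6 * k ^ 2) * h2

theorem mul_eq {K A : Type*} [Field K] [Ring A] [Algebra K A] (y : A) (t r k : K)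
    (h2 : (2 : K) = 0) (hy : y * y * y = t • (y * y) + (t + 1) • y + 1)
    (hk : k * (r ^ 3 + (t + 1) * r ^ 2 + t * r + 1) = 1) :
    NN y (C0 t r k) (C1 t r k) (C2 t r k) * NN y (Y0 t r k) (Y1 t r k) (Y2 t r k) =
      NN y (C0 t r k + 1) (C1 t r k) (C2 t r k) := by
  rw [NN_mul y t hy]
  refine NN_congr y ?_ ?_ ?_
  · unfold C0 C1 C2 Y0 Y1 Y2
    linear_combination (1 + k + t * k + r + r * k + r ^ 2 + r ^ 2 * k + r ^ 2 * t * k + r ^ 3 *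
        k + r ^ 4 * k + r ^ 4 * t * k + r ^ 5 * k) * hk + (k ^ 2 + 3 * t * k ^ 2 + 3 * t ^ 2 * k
        ^ 2 + 4 * r * k ^ 2 - r * t * k + 9 * r * t * k ^ 2 + 6 * r * t ^ 2 * k ^ 2 + r ^ 2 - r
        ^ 2 * k + 7 * r ^ 2 * k ^ 2 + 14 * r ^ 2 * t * k ^ 2 + 10 * r ^ 2 * t ^ 2 * k ^ 2 + 7 *
        r ^ 3 * k ^ 2 + 15 * r ^ 3 * t * k ^ 2 + 8 * r ^ 3 * t ^ 2 * k ^ 2 + 5 * r ^ 4 * k ^ 2 +
        r ^ 4 * t * k + 10 * r ^ 4 * t * k ^ 2 + 5 * r ^ 4 * t ^ 2 * k ^ 2 + r ^ 5 * k + 2 * r ^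
        5 * k ^ 2 + 5 * r ^ 5 * t * k ^ 2 + r ^ 5 * t ^ 2 * k ^ 2 + r ^ 6 * k ^ 2 + r ^ 6 * t *
        k ^ 2) * h2
  · unfold C0 C1 C2 Y0 Y1 Y2
    linear_combination (t * k + r ^ 2 * t * k + r ^ 4 * t * k) * hk + (-k + 2 * k ^ 2 - t * k +
        6 * t * k ^ 2 - t ^ 2 * k + 7 * t ^ 2 * k ^ 2 + 3 * t ^ 3 * k ^ 2 + 6 * r * k ^ 2 + 19 *
        r * t * k ^ 2 + 18 * r * t ^ 2 * k ^ 2 + 7 * r * t ^ 3 * k ^ 2 + r ^ 2 * k + 12 * r ^ 2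
        * k ^ 2 + r ^ 2 * t * k + 34 * r ^ 2 * t * k ^ 2 + 31 * r ^ 2 * t ^ 2 * k ^ 2 + 11 * r ^
        2 * t ^ 3 * k ^ 2 + 2 * r ^ 3 * k + 15 * r ^ 3 * k ^ 2 + 2 * r ^ 3 * t * k + 38 * r ^ 3
        * t * k ^ 2 + r ^ 3 * t ^ 2 * k + 30 * r ^ 3 * t ^ 2 * k ^ 2 + 9 * r ^ 3 * t ^ 3 * k ^ 2
        + r ^ 4 * k + 14 * r ^ 4 * k ^ 2 + r ^ 4 * t * k + 29 * r ^ 4 * t * k ^ 2 + 20 * r ^ 4 *
        t ^ 2 * k ^ 2 + 5 * r ^ 4 * t ^ 3 * k ^ 2 + 9 * r ^ 5 * k ^ 2 + 14 * r ^ 5 * t * k ^ 2 +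
        7 * r ^ 5 * t ^ 2 * k ^ 2 + r ^ 5 * t ^ 3 * k ^ 2 + 4 * r ^ 6 * k ^ 2 + 4 * r ^ 6 * t *
        k ^ 2 + r ^ 6 * t ^ 2 * k ^ 2 + r ^ 7 * k ^ 2) * h2
  · unfold C0 C1 C2 Y0 Y1 Y2
    linear_combination (k + r ^ 2 * k + r ^ 4 * k) * hk + (k ^ 2 - t * k + 6 * t * k ^ 2 + 7 * t
        ^ 2 * k ^ 2 + 4 * t ^ 3 * k ^ 2 + 5 * r * k ^ 2 + 17 * r * t * k ^ 2 + 19 * r * t ^ 2 *
        k ^ 2 + 8 * r * t ^ 3 * k ^ 2 + r ^ 2 * k + 9 * r ^ 2 * k ^ 2 + 31 * r ^ 2 * t * k ^ 2 +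
        31 * r ^ 2 * t ^ 2 * k ^ 2 + 12 * r ^ 2 * t ^ 3 * k ^ 2 + r ^ 3 * k + 12 * r ^ 3 * k ^ 2
        + r ^ 3 * t * k + 33 * r ^ 3 * t * k ^ 2 + 29 * r ^ 3 * t ^ 2 * k ^ 2 + 8 * r ^ 3 * t ^
        3 * k ^ 2 + r ^ 4 * k + 10 * r ^ 4 * k ^ 2 + 24 * r ^ 4 * t * k ^ 2 + 17 * r ^ 4 * t ^ 2
        * k ^ 2 + 4 * r ^ 4 * t ^ 3 * k ^ 2 + 6 * r ^ 5 * k ^ 2 + 10 * r ^ 5 * t * k ^ 2 + 5 * r
        ^ 5 * t ^ 2 * k ^ 2 + 2 * r ^ 6 * k ^ 2 + 2 * r ^ 6 * t * k ^ 2) * h2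

/-- conjugation by `u` -/
theorem conj_eq {K A : Type*} [Field K] [Ring A] [Algebra K A] (y u : A) (t : K)
    (h2 : (2 : K) = 0) (hy : y * y * y = t • (y * y) + (t + 1) • y + 1)
    (hu : u * y = NN y 0 (t + 1) 1 * u) (a b c : K) :
    u * NN y a b c = NN y (a + c * t) (b * (t + 1) + c * (t ^ 2 + t + 1)) (b + c * t) * u := by
  have hss : NN y 0 (t + 1) (1 : K) * NN y 0 (t + 1) 1 = NN y t (t ^ 2 + t + 1) t := by
    rw [NN_mul y t hy]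
    refine NN_congr y ?_ ?_ ?_
    · linear_combination (t + 1) * h2
    · linear_combination (t ^ 2 + 2 * t + 1) * h2
    · linear_combination (2 * t ^ 2 + 2 * t + 1) * h2
  have huu : u * (y * y) = NN y t (t ^ 2 + t + 1) t * u := by
    calc u * (y * y) = u * y * y := by noncomm_ring
      _ = NN y 0 (t + 1) 1 * u * y := by rw [hu]
      _ = NN y 0 (t + 1) 1 * (u * y) := mul_assoc _ _ _
      _ = NN y 0 (t + 1) (1 : K) * NN y 0 (t + 1) 1 * u := by rw [hu, ← mul_assoc]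
      _ = NN y t (t ^ 2 + t + 1) t * u := by rw [hss]
  calc u * NN y a b c = a • u + b • (u * y) + c • (u * (y * y)) := by
        unfold NN
        rw [mul_add, mul_add, mul_smul_comm, mul_smul_comm, mul_smul_comm, mul_one]
    _ = (a • (1 : A) + b • NN y 0 (t + 1) 1 + c • NN y t (t ^ 2 + t + 1) t) * u := by
        rw [hu, huu, add_mul, add_mul, smul_mul_assoc, smul_mul_assoc, smul_mul_assoc, one_mul]
    _ = _ := by
        congr 1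
        unfold NN
        module

theorem st_PM2 : Pool.Agent.Helper75.PY.ST_PM2.{u} := by
  intro K A _ _ _ y u t c r h2 hD h
  have h2A : (2 : A) = 0 := by
    have : (2 : A) = algebraMap K A 2 := (map_ofNat (algebraMap K A) 2).symm
    rw [this, h2, map_zero]
  have h3 : t + 3 = t + 1 := by linear_combination h2
  have hy : y * y * y = t • (y * y) + (t + 1) • y + 1 := by
    have := h.hy
    rwa [h3] at this
  have hneg : ∀ x : A, -x = x := by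
    intro x
    have : x + x = 0 := by rw [← two_mul, h2A, zero_mul]
    exact neg_eq_of_add_eq_zero_left this
  have hu : u * y = NN y 0 (t + 1) 1 * u := by
    rw [h.huy]
    congr 1
    unfold NN
    rw [h2A, sub_zero, sub_eq_add_neg, hneg]
    module
  obtain ⟨k, hkd⟩ : ∃ k : K, k = (r ^ 3 + (t + 1) * r ^ 2 + t * r + 1)⁻¹ := ⟨_, rfl⟩
  have hk : k * (r ^ 3 + (t + 1) * r ^ 2 + t * r + 1) = 1 := by
    rw [hkd]; exact inv_mul_cancel₀ hD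
  have hT : t + (t ^ 2 + t + 1) * (r ^ 2 + r) / (r ^ 3 + (t + 1) * r ^ 2 + t * r + 1) =
      TT t r k := by
    unfold TT
    rw [div_eq_mul_inv, ← hkd]
  have hY : r • (1 : A) + ((r ^ 2 + r + 1) / (r ^ 3 + (t + 1) * r ^ 2 + t * r + 1)) •
      (y * y + (r + 1 + t) • y + (r ^ 2 + t * r) • (1 : A)) =
      NN y (Y0 t r k) (Y1 t r k) (Y2 t r k) := by
    rw [div_eq_mul_inv, ← hkd]
    unfold NN Y0 Y1 Y2
    module
  rw [hT, hY]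
  have hYY := sq_eq y t r k h2 hy hk
  have hCY := mul_eq y t r k h2 hy hk
  have huY := conj_eq y u t h2 hy hu (Y0 t r k) (Y1 t r k) (Y2 t r k)
  obtain ⟨Y, hYd⟩ : ∃ Y : A, Y = NN y (Y0 t r k) (Y1 t r k) (Y2 t r k) := ⟨_, rfl⟩
  obtain ⟨C, hCd⟩ : ∃ C : A, C = NN y (C0 t r k) (C1 t r k) (C2 t r k) := ⟨_, rfl⟩
  have hCY' : C * Y = C + 1 := by
    rw [hYd, hCd, hCY]
    unfold NN
    module
  have hYY' : Y * Y = C + (TT t r k + 1) • Y := by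
    rw [hYd, hCd, hYY]
    unfold NN
    module
  have huY' : u * Y = C * u := by
    rw [hYd, hCd, huY]
    rfl
  have h3' : TT t r k + 3 = TT t r k + 1 := by linear_combination h2
  rw [← hYd]
  generalize TT t r k = T at *
  refine ⟨?_, ?_, h.hu, h.c0⟩
  · rw [h3']
    have e1 : Y * Y * Y = C + 1 + (T + 1) • (Y * Y) := by
      calc Y * Y * Y = (C + (T + 1) • Y) * Y := by rw [hYY']
        _ = C * Y + (T + 1) • (Y * Y) := by rw [add_mul, smul_mul_assoc]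
        _ = C + 1 + (T + 1) • (Y * Y) := by rw [hCY']
    have e2 : C = Y * Y + (T + 1) • Y := by
      have : C = Y * Y - (T + 1) • Y := by rw [hYY']; abel
      rw [this, sub_eq_add_neg, hneg]
    have e3 : Y * Y + Y * Y = 0 := by rw [← two_mul, h2A, zero_mul]
    calc Y * Y * Y = C + 1 + (T + 1) • (Y * Y) := e1
      _ = Y * Y + (T + 1) • Y + 1 + (T + 1) • (Y * Y) := by rw [← e2]
      _ = T • (Y * Y) + (T + 1) • Y + 1 + (Y * Y + Y * Y) := by module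
      _ = T • (Y * Y) + (T + 1) • Y + 1 := by rw [e3, add_zero]
  · rw [huY', h2A, sub_zero, hYY', add_sub_cancel_right]

end Pool.Agent.Helper39.PY
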